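import Pool.Agent.Y5.V.Stm

/-!
Project VL (helper5), job KP: the chain, ODE argument.
-/

set_option autoImplicit false

open Set Filter Topology

namespace Pool.Agent.Y496.VL.KP

open Pool.Agent.Y6.K Pool.Agent.Y5.V

theorem chain_lo {A : ℕ → ℝ} (hA : Chain A) (n : ℕ) : (7 / 5 : ℝ) ^ n ≤ A n := by
  induction n with
  | zero => simpa using hA.A0
  | succ n ih =>
    have := hA.lo n
    rw [pow_succ]
    linarith

theorem chain_pos {A : ℕ → ℝ} (hA : Chain A) (n : ℕ) : 0 < A n :=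
  lt_of_lt_of_le (by positivity) (chain_lo hA n)

/-- the weighted dissipation of the mode `n` -/
noncomputable def Dn (A x : ℕ → ℝ) (n : ℕ) : ℝ := (9 / 10 : ℝ) ^ n * A n * x n ^ 2

theorem Dn_nonneg {A : ℕ → ℝ} (hA : Chain A) (x : ℕ → ℝ) (n : ℕ) : 0 ≤ Dn A x n := by
  have := (chain_pos hA n).le
  unfold Dn
  positivity

theorem cross {A : ℕ → ℝ} (hA : Chain A) (x : ℕ → ℝ) (n : ℕ) :
    (9 / 10 : ℝ) ^ n * (A n * x n * x (n + 1)) ≤ 891 / 2000 * (Dn A x n + Dn A x (n + 1)) := by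
  have h1 := hA.lo n
  have hp := chain_pos hA n
  have h9 : (0 : ℝ) < (9 / 10) ^ n := by positivity
  have h2 : (9 / 10 : ℝ) ^ n * A n * (126 / 100 * x (n + 1) ^ 2) ≤ Dn A x (n + 1) := by
    unfold Dn
    rw [pow_succ (9 / 10 : ℝ) n]
    have h3 : (9 / 10 : ℝ) ^ n * (9 / 10) * (7 / 5 * A n) * x (n + 1) ^ 2 ≤
        (9 / 10 : ℝ) ^ n * (9 / 10) * A (n + 1) * x (n + 1) ^ 2 :=
      mul_le_mul_of_nonneg_right (mul_le_mul_of_nonneg_left h1 (by positivity)) (by positivity)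
    linarith
  have h4 : x n * x (n + 1) ≤ 891 / 2000 * (x n ^ 2 + 126 / 100 * x (n + 1) ^ 2) := by
    nlinarith [sq_nonneg (x n - 1000 / 891 * x (n + 1)), sq_nonneg (x (n + 1))]
  have h5 : (9 / 10 : ℝ) ^ n * A n * (x n * x (n + 1)) ≤
      (9 / 10 : ℝ) ^ n * A n * (891 / 2000 * (x n ^ 2 + 126 / 100 * x (n + 1) ^ 2)) :=
    mul_le_mul_of_nonneg_left h4 (by positivity)
  have h6 : Dn A x n = (9 / 10 : ℝ) ^ n * A n * x n ^ 2 := rfl
  rw [h6]
  nlinarith

/-- the lower bound for the chain -/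
theorem low {A : ℕ → ℝ} (hA : Chain A) (x : ℕ → ℝ) (N : ℕ) :
    9 / 1000 * ∑ n ∈ Finset.range (N + 1), Dn A x n - 9 / 10 * Dn A x N -
      891 / 2000 * Dn A x (N + 1) ≤
      ∑ n ∈ Finset.range (N + 1), (9 / 10 : ℝ) ^ n * cvf A x n := by
  have h1 : ∑ n ∈ Finset.range (N + 1), (9 / 10 : ℝ) ^ n * cvf A x n =
      ∑ n ∈ Finset.range (N + 1), (9 / 10 : ℝ) ^ n * (if n = 0 then 0 else A (n - 1) * x (n - 1) ^ 2) -
      ∑ n ∈ Finset.range (N + 1), (9 / 10 : ℝ) ^ n * (A n * x n * x (n + 1)) := by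
    rw [← Finset.sum_sub_distrib]
    refine Finset.sum_congr rfl fun n _ => ?_
    unfold cvf
    ring
  have h2 : ∑ n ∈ Finset.range (N + 1), (9 / 10 : ℝ) ^ n *
      (if n = 0 then 0 else A (n - 1) * x (n - 1) ^ 2) =
      9 / 10 * ∑ n ∈ Finset.range N, Dn A x n := by
    rw [Finset.sum_range_succ', Finset.mul_sum]
    simp only [if_true, mul_zero, add_zero]
    refine Finset.sum_congr rfl fun n _ => ?_
    rw [if_neg (Nat.succ_ne_zero n), Nat.add_sub_cancel]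
    unfold Dn
    ring
  have h3 : ∑ n ∈ Finset.range (N + 1), (9 / 10 : ℝ) ^ n * (A n * x n * x (n + 1)) ≤
      ∑ n ∈ Finset.range (N + 1), 891 / 2000 * (Dn A x n + Dn A x (n + 1)) :=
    Finset.sum_le_sum fun n _ => cross hA x n
  rw [← Finset.mul_sum, Finset.sum_add_distrib] at h3
  have h4 : ∑ n ∈ Finset.range (N + 1), Dn A x (n + 1) =
      ∑ n ∈ Finset.range (N + 1), Dn A x n + Dn A x (N + 1) - Dn A x 0 := by
    have h5 := Finset.sum_range_succ (fun n => Dn A x n) (N + 1)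
    have h6 := Finset.sum_range_succ' (fun n => Dn A x n) (N + 1)
    linarith
  have h7 := Finset.sum_range_succ (fun n => Dn A x n) N
  have h8 := Dn_nonneg hA x 0
  rw [h1, h2]
  rw [h4] at h3
  linarith

theorem geom_le {r : ℝ} (h0 : 0 ≤ r) (h1 : r < 1) (N : ℕ) :
    ∑ n ∈ Finset.range N, r ^ n ≤ 1 / (1 - r) := by
  have h2 : (0 : ℝ) < 1 - r := by linarith
  rw [le_div_iff₀ h2]
  have h3 := geom_sum_mul_neg r N
  rw [h3]
  have := pow_nonneg h0 N
  linarith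

theorem J_sq {A : ℕ → ℝ} (hA : Chain A) (x : ℕ → ℝ) (N : ℕ) :
    (∑ n ∈ Finset.range N, (9 / 10 : ℝ) ^ n * x n) ^ 2 ≤
      14 / 5 * ∑ n ∈ Finset.range N, Dn A x n := by
  have h1 : (∑ n ∈ Finset.range N, (9 / 10 : ℝ) ^ n * x n) ^ 2 ≤
      (∑ n ∈ Finset.range N, Dn A x n) * ∑ n ∈ Finset.range N, (9 / 10 : ℝ) ^ n / A n := by
    apply Finset.sum_sq_le_sum_mul_sum_of_sq_le_mul
    · intro n _
      exact Dn_nonneg hA x n
    · intro n _
      have := (chain_pos hA n).le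
      positivity
    · intro n _
      have := (chain_pos hA n).ne'
      unfold Dn
      refine le_of_eq ?_
      field_simp
  have h2 : ∑ n ∈ Finset.range N, (9 / 10 : ℝ) ^ n / A n ≤ 14 / 5 := by
    have h3 : ∑ n ∈ Finset.range N, (9 / 10 : ℝ) ^ n / A n ≤
        ∑ n ∈ Finset.range N, (9 / 14 : ℝ) ^ n := by
      refine Finset.sum_le_sum fun n _ => ?_
      have h4 := chain_lo hA n
      rw [div_le_iff₀ (chain_pos hA n)]
      calc (9 / 10 : ℝ) ^ n = (9 / 14 : ℝ) ^ n * (7 / 5) ^ n := by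
            rw [← mul_pow]; norm_num
        _ ≤ _ := mul_le_mul_of_nonneg_left h4 (by positivity)
    refine h3.trans ((geom_le (by norm_num) (by norm_num) N).trans ?_)
    norm_num
  have h3 : 0 ≤ ∑ n ∈ Finset.range N, Dn A x n :=
    Finset.sum_nonneg fun n _ => Dn_nonneg hA x n
  nlinarith

theorem J_le (x : ℕ → ℝ) (N : ℕ) (hx : ∑ n ∈ Finset.range N, x n ^ 2 ≤ 1) :
    ∑ n ∈ Finset.range N, (9 / 10 : ℝ) ^ n * x n ≤ 3 := by
  have h1 := Finset.sum_mul_sq_le_sq_mul_sq (Finset.range N) (fun n => (9 / 10 : ℝ) ^ n) x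
  have h2 : ∑ n ∈ Finset.range N, ((9 / 10 : ℝ) ^ n) ^ 2 ≤ 9 := by
    have h3 : ∑ n ∈ Finset.range N, ((9 / 10 : ℝ) ^ n) ^ 2 =
        ∑ n ∈ Finset.range N, (81 / 100 : ℝ) ^ n := by
      refine Finset.sum_congr rfl fun n _ => ?_
      rw [← pow_mul, mul_comm, pow_mul]
      norm_num
    rw [h3]
    refine (geom_le (by norm_num) (by norm_num) N).trans ?_
    norm_num
  have h4 : 0 ≤ ∑ n ∈ Finset.range N, x n ^ 2 := Finset.sum_nonneg fun n _ => sq_nonneg _
  have h5 : (∑ n ∈ Finset.range N, (9 / 10 : ℝ) ^ n * x n) ^ 2 ≤ 3 ^ 2 := by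
    refine h1.trans ?_
    nlinarith
  exact (abs_le_of_sq_le_sq' h5 (by norm_num)).2

theorem t_KP : S_KP := by
  intro A hA c hc hsum
  set S : ℝ := ∑' n, (9 / 10 : ℝ) ^ n * c n with hS
  have hS0 : 0 ≤ S := tsum_nonneg fun n => mul_nonneg (by positivity) (hc n)
  refine ⟨4800 * S ^ 2 + 1, 28800, by positivity, by norm_num, ?_⟩
  intro κ T x f en E hκ hT h1 h2 h3 _ h5 h6 h7 hx0 hx1
  by_contra hcon
  push Not at hcon
  obtain ⟨M, hM⟩ := h7 1 28800 hcon
  have hM0 : 0 ≤ M := le_trans (mul_nonneg (pow_nonneg (chain_pos hA 0).le 1) (abs_nonneg _))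
    (hM 0 ⟨le_rfl, by norm_num⟩ 0)
  obtain ⟨N, hN⟩ : ∃ N : ℕ, 2 * M * (9 / 10 : ℝ) ^ N ≤ 1 / 9600 := by
    obtain ⟨N, hN⟩ := exists_pow_lt_of_lt_one (show (0 : ℝ) < 1 / 9600 / (2 * M + 1) by positivity)
      (show (9 / 10 : ℝ) < 1 by norm_num)
    refine ⟨N, ?_⟩
    rw [lt_div_iff₀ (by positivity)] at hN
    have : (0 : ℝ) < (9 / 10) ^ N := by positivity
    nlinarith
  have hsub : ∀ t ∈ Icc (0 : ℝ) 28800, t ∈ Ico 0 T := fun t ht => ⟨ht.1, lt_of_le_of_lt ht.2 hcon⟩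
  choose! e' he' using h5
  set J : ℝ → ℝ := fun t => ∑ n ∈ Finset.range (N + 1), (9 / 10 : ℝ) ^ n * x n t with hJ
  set J' : ℝ → ℝ := fun t => ∑ n ∈ Finset.range (N + 1), (9 / 10 : ℝ) ^ n *
    (cvf A (fun m => x m t) n + f n t) with hJ'
  have hJd : ∀ t ∈ Ico 0 T, HasDerivWithinAt J (J' t) (Ico 0 T) t := by
    intro t ht
    have := HasDerivWithinAt.fun_sum (u := Finset.range (N + 1)) (fun n (_ : n ∈ Finset.range (N + 1)) =>
      (h1 n t ht).const_mul ((9 / 10 : ℝ) ^ n))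
    exact this
  set g : ℝ → ℝ := fun t => en t / 4 - J t with hg
  have hgd : ∀ t ∈ Ico 0 T, HasDerivWithinAt g (e' t / 4 - J' t) (Ico 0 T) t := fun t ht =>
    ((he' t ht).1.div_const 4).sub (hJd t ht)
  -- the bounds
  have hx1' : ∀ t ∈ Ico 0 T, ∀ n, |x n t| ≤ 1 := by
    intro t ht n
    obtain ⟨a1, a2⟩ := h6 t ht
    have a3 : x n t ^ 2 ≤ 1 := (a1.le_tsum n (fun m _ => sq_nonneg _)).trans a2
    rw [← sq_abs] at a3
    nlinarith [abs_nonneg (x n t)]
  have hDn : ∀ t ∈ Icc (0 : ℝ) 28800, ∀ n, Dn A (fun m => x m t) n ≤ (9 / 10 : ℝ) ^ n * M := by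
    intro t ht n
    have a1 := hM t ht n
    have a2 := hx1' t (hsub t ht) n
    rw [pow_one] at a1
    unfold Dn
    have a3 : A n * x n t ^ 2 ≤ M := by
      rw [← sq_abs]
      calc A n * |x n t| ^ 2 = (A n * |x n t|) * |x n t| := by ring
        _ ≤ M * 1 := mul_le_mul a1 a2 (abs_nonneg _) hM0
        _ = M := mul_one M
    calc (9 / 10 : ℝ) ^ n * A n * x n t ^ 2 = (9 / 10 : ℝ) ^ n * (A n * x n t ^ 2) := by ring
      _ ≤ _ := mul_le_mul_of_nonneg_left a3 (by positivity)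
  have hJ'low : ∀ t ∈ Icc (0 : ℝ) 28800,
      9 / 1000 * ∑ n ∈ Finset.range (N + 1), Dn A (fun m => x m t) n - 1 / 9600 - S * E t ≤
        J' t := by
    intro t ht
    have a1 := low hA (fun m => x m t) N
    have a2 := hDn t ht N
    have a3 := hDn t ht (N + 1)
    have a4 : (9 / 10 : ℝ) ^ (N + 1) * M ≤ (9 / 10 : ℝ) ^ N * M := by
      apply mul_le_mul_of_nonneg_right _ hM0
      exact pow_le_pow_of_le_one (by norm_num) (by norm_num) (Nat.le_succ N)
    have a5 : J' t = ∑ n ∈ Finset.range (N + 1), (9 / 10 : ℝ) ^ n * cvf A (fun m => x m t) n +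
        ∑ n ∈ Finset.range (N + 1), (9 / 10 : ℝ) ^ n * f n t := by
      rw [hJ', ← Finset.sum_add_distrib]
      refine Finset.sum_congr rfl fun n _ => ?_
      ring
    have a6 : -(S * E t) ≤ ∑ n ∈ Finset.range (N + 1), (9 / 10 : ℝ) ^ n * f n t := by
      have hE := (h3 t (hsub t ht)).1
      have b1 : ∀ n ∈ Finset.range (N + 1), -((9 / 10 : ℝ) ^ n * c n * E t) ≤
          (9 / 10 : ℝ) ^ n * f n t := by
        intro n _
        have b2 := (abs_le.1 (h2 n t (hsub t ht))).1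
        have b3 : (9 / 10 : ℝ) ^ n * -(c n * E t) ≤ (9 / 10 : ℝ) ^ n * f n t :=
          mul_le_mul_of_nonneg_left b2 (by positivity)
        linarith
      have b4 := Finset.sum_le_sum b1
      rw [Finset.sum_neg_distrib, ← Finset.sum_mul] at b4
      have b5 : ∑ n ∈ Finset.range (N + 1), (9 / 10 : ℝ) ^ n * c n ≤ S :=
        hsum.sum_le_tsum _ (fun n _ => mul_nonneg (by positivity) (hc n))
      have b6 := mul_le_mul_of_nonneg_right b5 hE
      linarith
    rw [a5]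
    have a7 : 0 ≤ (9 / 10 : ℝ) ^ N * M := by positivity
    nlinarith
  have hen : ∀ t ∈ Icc (0 : ℝ) 28800, -(1 / 9600) ≤ -(S * E t) - e' t / 4 := by
    intro t ht
    have a1 := (he' t (hsub t ht)).2
    have a2 : 4800 * S ^ 2 * E t ^ 2 ≤ κ * E t ^ 2 :=
      mul_le_mul_of_nonneg_right (by linarith) (sq_nonneg _)
    nlinarith [sq_nonneg (S * E t - 1 / 4800)]
  have hcont : ContinuousOn g (Icc 0 28800) := by
    intro t ht
    exact (hgd t (hsub t ht)).continuousWithinAt.mono fun s hs => hsub s hs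
  have hder : ∀ t ∈ Ico (0 : ℝ) 28800, HasDerivWithinAt g (e' t / 4 - J' t) (Ici t) t := by
    intro t ht
    have htT : t ∈ Ico 0 T := hsub t ⟨ht.1, ht.2.le⟩
    refine (hgd t htT).mono_of_mem_nhdsWithin ?_
    exact mem_of_superset (Ico_mem_nhdsGE htT.2) (Ico_subset_Ico_left htT.1)
  have key := image_le_of_deriv_right_lt_deriv_boundary' (f := g) (f' := fun t => e' t / 4 - J' t)
    (a := 0) (b := 28800) hcont hder (B := fun t => -(3 / 4 + t / 9600))
    (B' := fun _ => -(1 / 9600)) (by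
      have a1 : J 0 = 1 := by
        rw [hJ]
        simp only
        rw [Finset.sum_range_succ']
        rw [hx0, pow_zero, one_mul]
        have : ∑ k ∈ Finset.range N, (9 / 10 : ℝ) ^ (k + 1) * x (k + 1) 0 = 0 :=
          Finset.sum_eq_zero fun k _ => by rw [hx1, mul_zero]
        rw [this, zero_add]
      have a2 := (h3 0 ⟨le_rfl, hT⟩).2.2
      rw [hg]
      simp only
      rw [a1]
      linarith) (by fun_prop) (by
      intro t _
      have := ((hasDerivAt_id t).div_const 9600).const_add (3 / 4) |>.neg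
      exact this.hasDerivWithinAt) (by
      intro t ht heq
      have ht' : t ∈ Icc (0 : ℝ) 28800 := ⟨ht.1, ht.2.le⟩
      have a1 := hJ'low t ht'
      have a2 := hen t ht'
      have a3 := (h3 t (hsub t ht')).2.1
      have a4 : 3 / 4 ≤ J t := by
        have a5 : en t / 4 - J t = -(3 / 4 + t / 9600) := heq
        have := ht.1
        linarith
      have a6 := J_sq hA (fun m => x m t) (N + 1)
      have a7 : (3 / 4 : ℝ) ^ 2 ≤ J t ^ 2 := pow_le_pow_left₀ (by norm_num) a4 2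
      have a8 : J t ^ 2 ≤ 14 / 5 * ∑ n ∈ Finset.range (N + 1), Dn A (fun m => x m t) n := a6
      show e' t / 4 - J' t < -(1 / 9600)
      norm_num at a7
      linarith)
  have hfin := key (x := 28800) ⟨by norm_num, le_rfl⟩
  have b1 : J 28800 ≤ 3 := by
    obtain ⟨a1, a2⟩ := h6 28800 (hsub _ ⟨by norm_num, le_rfl⟩)
    exact J_le (fun m => x m 28800) (N + 1) ((a1.sum_le_tsum _ (fun m _ => sq_nonneg _)).trans a2)
  have b2 := (h3 28800 (hsub _ ⟨by norm_num, le_rfl⟩)).2.1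
  have b3 : en 28800 / 4 - J 28800 ≤ -(3 / 4 + 28800 / 9600) := hfin
  norm_num at b3
  linarith

end Pool.Agent.Y496.VL.KP
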